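import Pool.Agent.Helper68.QS.St3

/-!
Project QD, module DNE: the derivative of `nq κ` exists and is unique almost everywhere.
-/

namespace Pool.Agent.Helper60.QS

open Pool.Agent.Helper68.QS Pool.Agent.Helper68.QC
open MeasureTheory Set Filter Topology Complex
open scoped ContDiff ComplexConjugate ENNReal

theorem pDNE (hCVM : Pool.Agent.Helper68.QC.StCVM) (hUNW : Pool.Agent.Helper68.QC.StUNW) :
    Pool.Agent.Helper68.QS.StDNE := by
  intro k hk κ hκ
  refine ⟨?_, ?_⟩
  · obtain ⟨a, b, hwd, hb, hm, hne, -⟩ := hCVM k hk κ hκ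
    have hb' : b = fun z => κ z * a z := funext hb
    rw [hb'] at hwd
    exact ⟨a, hwd, hm, hne⟩
  · intro a a' ha ha'
    have h := (hUNW univ (nq κ) (nq κ) a (fun z => κ z * a z) a' (fun z => κ z * a' z) isOpen_univ
      (fun z _ => rfl) ha.wd ha'.wd).1
    rwa [Measure.restrict_univ] at h

end Pool.Agent.Helper60.QS
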